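import Pool.Agent.MP_8ec908_lc.H19.Codes

/-! A Boolean checker for short refutations on tree codes, and its correctness. -/

namespace Pool.Agent.MP_8ec908_lc.H19

open Pool.Agent.MP_8ec908_lc.Defs

/-! ### Bounds on codes -/

theorem pair_mono {a a' b b' : ℕ} (ha : a ≤ a') (hb : b ≤ b') : Nat.pair a b ≤ Nat.pair a' b' := by
  have h1 : Nat.pair a b ≤ Nat.pair a' b := by
    rcases ha.eq_or_lt with rfl | h
    · exact le_rfl
    · exact (Nat.pair_lt_pair_left _ h).le
  have h2 : Nat.pair a' b ≤ Nat.pair a' b' := by
    rcases hb.eq_or_lt with rfl | h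
    · exact le_rfl
    · exact (Nat.pair_lt_pair_right _ h).le
  exact h1.trans h2

/-- Bound on the code of a list of at most `j` numbers at most `b`. -/
def lb (b j : ℕ) : ℕ := (fun y => Nat.pair b y + 1)^[j] 0

theorem lb_succ (b j : ℕ) : lb b (j + 1) = Nat.pair b (lb b j) + 1 := by
  simp [lb, Function.iterate_succ_apply']

theorem encode_le_lb (b : ℕ) : ∀ (l : List ℕ) (j : ℕ), l.length ≤ j → (∀ x ∈ l, x ≤ b) →
    Encodable.encode l ≤ lb b j
  | [], _, _, _ => by simp
  | a :: l, 0, h, _ => by simp at h
  | a :: l, j + 1, h, hb => by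
    rw [Encodable.encode_list_cons, lb_succ]
    have h1 := encode_le_lb b l j (by simpa using h) fun x hx => hb x (by simp [hx])
    exact Nat.succ_le_succ (pair_mono (hb a (by simp)) h1)

/-- Bound on the code of a tree of depth at most `d` with data and arities at most `M`. -/
def tb (M d : ℕ) : ℕ := (fun y => Nat.pair (Nat.pair 6 M) (lb y M))^[d] 0

theorem tb_succ (M d : ℕ) : tb M (d + 1) = Nat.pair (Nat.pair 6 M) (lb (tb M d) M) := by
  simp [tb, Function.iterate_succ_apply']

theorem node_le_tb {M d t x : ℕ} {ks : List ℕ} (ht : t ≤ 6) (hx : x ≤ M) (hl : ks.length ≤ M)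
    (hk : ∀ c ∈ ks, c ≤ tb M d) : node t x ks ≤ tb M (d + 1) := by
  rw [tb_succ, node]
  exact pair_mono (pair_mono ht hx) (encode_le_lb _ _ _ hl hk)

@[simp] theorem length_idx (i : ℕ) : (idx i).length = i + 1 := by simp [idx]

theorem length_le_flatten {n : ℕ} (f : Fin n → List ℕ) (i : Fin n) :
    (f i).length ≤ (List.ofFn f).flatten.length :=
  (List.sublist_flatten_of_mem (by simp [List.mem_ofFn])).length_le

theorem tcode_le (M : ℕ) (t : Tm) : ∀ d, t.str.length ≤ d → d ≤ M → tcode t ≤ tb M d := by
  induction t with
  | var i =>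
    intro d h hd
    simp only [Tm.str, List.length_cons, length_idx] at h
    obtain ⟨d, rfl⟩ : ∃ e, d = e + 1 := ⟨d - 1, by omega⟩
    exact node_le_tb (by omega) (by omega) (by simp) (by simp)
  | app k n ts ih =>
    intro d h hd
    simp only [Tm.str, List.length_cons, List.length_append, length_idx] at h
    obtain ⟨d, rfl⟩ : ∃ e, d = e + 1 := ⟨d - 1, by omega⟩
    refine node_le_tb (by omega) (by omega) (by simp; omega) ?_
    intro c hc
    obtain ⟨i, rfl⟩ := List.mem_ofFn.1 hc
    have := length_le_flatten (fun i => (ts i).str) i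
    exact ih i d (by omega) (by omega)

theorem tstr_pos (t : Tm) : 2 ≤ t.str.length := by
  cases t with
  | var i => simp [Tm.str]
  | app k n ts => simp only [Tm.str, List.length_cons, List.length_append, length_idx]; omega

theorem fstr_pos (a : Fm) : 1 ≤ a.str.length := by
  cases a <;> simp [Fm.str]

theorem fcode_le (M : ℕ) (a : Fm) : ∀ d, a.str.length ≤ d → d ≤ M → fcode a ≤ tb M d := by
  induction a with
  | bot =>
    intro d h hd
    simp only [Fm.str, List.length_cons] at h
    obtain ⟨d, rfl⟩ : ∃ e, d = e + 1 := ⟨d - 1, by omega⟩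
    rw [fcode, botC]
    exact node_le_tb (by omega) (by omega) (by simp) (by simp)
  | eq s t =>
    intro d h hd
    simp only [Fm.str, List.length_cons, List.length_append] at h
    obtain ⟨d, rfl⟩ : ∃ e, d = e + 1 := ⟨d - 1, by omega⟩
    have := tstr_pos s
    refine node_le_tb (by omega) (by omega) (by simp; omega) ?_
    intro c hc
    simp only [List.mem_cons, List.not_mem_nil, or_false] at hc
    rcases hc with rfl | rfl
    · exact tcode_le M s d (by omega) (by omega)
    · exact tcode_le M t d (by omega) (by omega)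
  | rel k n ts =>
    intro d h hd
    simp only [Fm.str, List.length_cons, List.length_append, length_idx] at h
    obtain ⟨d, rfl⟩ : ∃ e, d = e + 1 := ⟨d - 1, by omega⟩
    refine node_le_tb (by omega) (by omega) (by simp; omega) ?_
    intro c hc
    obtain ⟨i, rfl⟩ := List.mem_ofFn.1 hc
    have := length_le_flatten (fun i => (ts i).str) i
    exact tcode_le M _ d (by omega) (by omega)
  | imp a b iha ihb =>
    intro d h hd
    simp only [Fm.str, List.length_cons, List.length_append] at h
    obtain ⟨d, rfl⟩ : ∃ e, d = e + 1 := ⟨d - 1, by omega⟩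
    have := fstr_pos a
    refine node_le_tb (by omega) (by omega) (by simp; omega) ?_
    intro c hc
    simp only [List.mem_cons, List.not_mem_nil, or_false] at hc
    rcases hc with rfl | rfl
    · exact iha d (by omega) (by omega)
    · exact ihb d (by omega) (by omega)
  | all x a ih =>
    intro d h hd
    simp only [Fm.str, List.length_cons, List.length_append, length_idx] at h
    obtain ⟨d, rfl⟩ : ∃ e, d = e + 1 := ⟨d - 1, by omega⟩
    refine node_le_tb (by omega) (by omega) (by simp; omega) ?_
    intro c hc
    simp only [List.mem_cons, List.not_mem_nil, or_false] at hc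
    subst hc
    exact ih d (by omega) (by omega)

/-- A strict bound for numbers at most `M` and for codes of strings of length at most `M`. -/
def cb (M : ℕ) : ℕ := tb M M + M + 1

theorem tcode_lt_cb {M : ℕ} {t : Tm} (h : t.str.length ≤ M) : tcode t < cb M := by
  have := tcode_le M t M h le_rfl
  unfold cb; omega

theorem fcode_lt_cb {M : ℕ} {a : Fm} (h : a.str.length ≤ M) : fcode a < cb M := by
  have := fcode_le M a M h le_rfl
  unfold cb; omega

theorem lt_cb {M x : ℕ} (h : x ≤ M) : x < cb M := by unfold cb; omega

/-! ### Syntactic lemmas that bound the hidden parameters of the axiom schemes -/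

theorem tsubst_of_not_occ (x : ℕ) (u : Tm) (t : Tm) (h : ¬ t.Occ x) : t.subst x u = t := by
  induction t with
  | var i => simp only [Tm.Occ] at h; simp [Tm.subst, h]
  | app k n ts ih =>
    simp only [Tm.Occ, not_exists] at h
    simp only [Tm.subst]
    congr 1
    funext i
    exact ih i (h i)

theorem fsubst_of_not_free (x : ℕ) (u : Tm) (a : Fm) (h : ¬ a.Free x) : a.subst x u = a := by
  induction a with
  | bot => rfl
  | eq s t =>
    simp only [Fm.Free, not_or] at h
    simp [Fm.subst, tsubst_of_not_occ x u s h.1, tsubst_of_not_occ x u t h.2]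
  | rel k n ts =>
    simp only [Fm.Free, not_exists] at h
    simp only [Fm.subst]
    congr 1
    funext i
    exact tsubst_of_not_occ x u _ (h i)
  | imp a b iha ihb =>
    simp only [Fm.Free, not_or] at h
    simp [Fm.subst, iha h.1, ihb h.2]
  | all y a ih =>
    simp only [Fm.Free, not_and] at h
    by_cases hy : y = x
    · simp [Fm.subst, hy]
    · simp [Fm.subst, hy, ih (h hy)]

theorem freeFor_of_not_free (x : ℕ) (u : Tm) (a : Fm) (h : ¬ a.Free x) : a.FreeFor x u := by
  induction a with
  | bot => trivial
  | eq s t => trivial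
  | rel k n ts => trivial
  | imp a b iha ihb =>
    simp only [Fm.Free, not_or] at h
    exact ⟨iha h.1, ihb h.2⟩
  | all y a _ => exact Or.inl h

theorem tlen_le_subst (x : ℕ) (u : Tm) (t : Tm) (h : t.Occ x) :
    u.str.length ≤ (t.subst x u).str.length := by
  induction t with
  | var i => simp only [Tm.Occ] at h; simp [Tm.subst, h]
  | app k n ts ih =>
    obtain ⟨i, hi⟩ := h
    have h1 := ih i hi
    have h2 := length_le_flatten (fun i => ((ts i).subst x u).str) i
    simp only [Tm.subst, Tm.str, List.length_cons, List.length_append]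
    omega

theorem flen_le_subst (x : ℕ) (u : Tm) (a : Fm) (h : a.Free x) :
    u.str.length ≤ (a.subst x u).str.length := by
  induction a with
  | bot => exact h.elim
  | eq s t =>
    simp only [Fm.subst, Fm.str, List.length_cons, List.length_append]
    rcases h with h | h
    · have := tlen_le_subst x u s h; omega
    · have := tlen_le_subst x u t h; omega
  | rel k n ts =>
    obtain ⟨i, hi⟩ := h
    have h1 := tlen_le_subst x u _ hi
    have h2 := length_le_flatten (fun i => ((ts i).subst x u).str) i
    simp only [Fm.subst, Fm.str, List.length_cons, List.length_append]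
    omega
  | imp a b iha ihb =>
    simp only [Fm.subst, Fm.str, List.length_cons, List.length_append]
    rcases h with h | h
    · have := iha h; omega
    · have := ihb h; omega
  | all y a ih =>
    obtain ⟨h1, h2⟩ := h
    have := ih h2
    simp only [Fm.subst, h1, if_false, Fm.str, List.length_cons, List.length_append]
    omega

theorem lt_len_of_occ (y : ℕ) (t : Tm) (h : t.Occ y) : y < t.str.length := by
  induction t with
  | var i => simp only [Tm.Occ] at h; simp [Tm.str, h]
  | app k n ts ih =>
    obtain ⟨i, hi⟩ := h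
    have h1 := ih i hi
    have h2 := length_le_flatten (fun i => (ts i).str) i
    simp only [Tm.str, List.length_cons, List.length_append]
    omega

theorem subst_rename (x y : ℕ) (s w : Tm) (r : Tm) (h : ¬ (r.subst x s).Occ y) :
    (r.subst x (.var y)).subst y w = r.subst x w := by
  induction r with
  | var i =>
    by_cases hi : i = x
    · simp [Tm.subst, hi]
    · simp only [Tm.subst, hi, if_false, Tm.Occ] at h
      simp [Tm.subst, hi, h]
  | app k n ts ih =>
    simp only [Tm.subst, Tm.Occ, not_exists] at h
    simp only [Tm.subst]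
    congr 1
    funext i
    exact ih i (h i)

theorem length_flatten_ofFn {n : ℕ} (f : Fin n → List ℕ) :
    (List.ofFn f).flatten.length = ∑ i, (f i).length := by
  rw [List.length_flatten, List.map_ofFn, List.sum_ofFn]
  rfl

theorem len_rename (x y : ℕ) (s : Tm) (r : Tm) :
    (r.subst x (.var y)).str.length ≤ (y + 2) * (r.subst x s).str.length := by
  induction r with
  | var i =>
    by_cases hi : i = x
    · have := tstr_pos s
      simp only [Tm.subst, hi, if_true, Tm.str, List.length_cons, length_idx]
      nlinarith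
    · simp only [Tm.subst, hi, if_false]
      nlinarith
  | app k n ts ih =>
    simp only [Tm.subst, Tm.str, List.length_cons, List.length_append, length_idx,
      length_flatten_ofFn]
    have h : ∑ i, ((ts i).subst x (.var y)).str.length ≤
        (y + 2) * ∑ i, ((ts i).subst x s).str.length := by
      rw [Finset.mul_sum]
      exact Finset.sum_le_sum fun i _ => ih i
    nlinarith

theorem atomic_rename (x : ℕ) (s : Tm) (a : Fm) (ha : a.Atomic) (y : ℕ)
    (hy : (a.subst x s).str.length ≤ y) :
    ∃ a' : Fm, a'.Atomic ∧ a'.str.length ≤ (y + 2) * (a.subst x s).str.length ∧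
      ∀ w, a'.subst y w = a.subst x w := by
  refine ⟨a.subst x (.var y), ?_, ?_, ?_⟩
  · cases a <;> simp_all [Fm.Atomic, Fm.subst]
  · cases a with
    | eq t u =>
      have h1 := len_rename x y s t
      have h2 := len_rename x y s u
      simp only [Fm.subst, Fm.str, List.length_cons, List.length_append]
      nlinarith
    | rel k n ts =>
      simp only [Fm.subst, Fm.str, List.length_cons, List.length_append, length_idx,
        length_flatten_ofFn]
      have h : ∑ i, ((ts i).subst x (.var y)).str.length ≤
          (y + 2) * ∑ i, ((ts i).subst x s).str.length := by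
        rw [Finset.mul_sum]
        exact Finset.sum_le_sum fun i _ => len_rename x y s _
      nlinarith
    | _ => exact ha.elim
  · intro w
    cases a with
    | eq t u =>
      simp only [Fm.subst, Fm.str, List.length_cons, List.length_append] at hy ⊢
      rw [subst_rename x y s w t, subst_rename x y s w u]
      · intro h; have := lt_len_of_occ _ _ h; omega
      · intro h; have := lt_len_of_occ _ _ h; omega
    | rel k n ts =>
      simp only [Fm.subst, Fm.str, List.length_cons, List.length_append] at hy ⊢
      congr 1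
      funext i
      apply subst_rename x y s w
      intro h
      have h1 := lt_len_of_occ _ _ h
      have h2 := length_le_flatten (fun i => ((ts i).subst x s).str) i
      omega
    | _ => exact ha.elim

/-! ### The checker -/

def axBody (c a b e x : ℕ) : Bool :=
  (isF a && isF b && c == impC a (impC b a))
  || (isF a && isF b && isF e &&
        c == impC (impC a (impC b e)) (impC (impC a b) (impC a e)))
  || (isF a && c == impC (impC (impC a botC) botC) a)
  || (isF a && isT b && ffC x b a && c == impC (allC x a) (substC x b a))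
  || (isF a && isF b && !(freeC x a) && c == impC (allC x (impC a b)) (impC a (allC x b)))
  || (isT a && c == eqC a a)
  || (isF a && atomC a && isT b && isT e &&
        c == impC (eqC b e) (impC (substC x b a) (substC x e a)))

def axC (N c : ℕ) : Bool :=
  (List.range N).any fun a => (List.range N).any fun b => (List.range N).any fun e =>
    (List.range N).any fun x => axBody c a b e x

theorem axBody_sound {c a b e x : ℕ} (h : axBody c a b e x = true) :
    ∃ φ, c = fcode φ ∧ LogAx φ := by
  simp only [axBody, Bool.or_eq_true, Bool.and_eq_true, beq_iff_eq, isF_iff, isT_iff,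
    Bool.not_eq_true'] at h
  rcases h with (((((h | h) | h) | h) | h) | h) | h
  · obtain ⟨⟨⟨a, rfl⟩, ⟨b, rfl⟩⟩, rfl⟩ := h
    exact ⟨_, rfl, LogAx.k a b⟩
  · obtain ⟨⟨⟨⟨a, rfl⟩, ⟨b, rfl⟩⟩, ⟨e, rfl⟩⟩, rfl⟩ := h
    exact ⟨_, rfl, LogAx.s a b e⟩
  · obtain ⟨⟨a, rfl⟩, rfl⟩ := h
    exact ⟨_, rfl, LogAx.dn a⟩
  · obtain ⟨⟨⟨⟨a, rfl⟩, ⟨b, rfl⟩⟩, hf⟩, rfl⟩ := h
    refine ⟨_, ?_, LogAx.inst x b a ((ffC_fcode x b a).1 hf)⟩
    rw [substC_fcode]; rfl
  · obtain ⟨⟨⟨⟨a, rfl⟩, ⟨b, rfl⟩⟩, hf⟩, rfl⟩ := h
    refine ⟨_, rfl, LogAx.dist x a b ?_⟩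
    rw [← freeC_fcode, hf]; simp
  · obtain ⟨⟨a, rfl⟩, rfl⟩ := h
    exact ⟨_, rfl, LogAx.refl a⟩
  · obtain ⟨⟨⟨⟨⟨a, rfl⟩, ha⟩, ⟨b, rfl⟩⟩, ⟨e, rfl⟩⟩, rfl⟩ := h
    refine ⟨_, ?_, LogAx.leib x b e a ((atomC_fcode a).1 ha)⟩
    rw [substC_fcode, substC_fcode]; rfl

theorem axC_sound {N c : ℕ} (h : axC N c = true) : ∃ φ, c = fcode φ ∧ LogAx φ := by
  simp only [axC, List.any_eq_true] at h
  obtain ⟨a, -, b, -, e, -, x, -, h⟩ := h
  exact axBody_sound h

theorem axC_intro {N c : ℕ} (a b e x : ℕ) (ha : a < N) (hb : b < N) (he : e < N) (hx : x < N)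
    (h : axBody c a b e x = true) : axC N c = true := by
  simp only [axC, List.any_eq_true, List.mem_range]
  exact ⟨a, ha, b, hb, e, he, x, hx, h⟩

/-- The length bound for the hidden parameters of an instance of length at most `n`. -/
def mb (n : ℕ) : ℕ := (n + 2) * n + n + 2

theorem axC_complete {n : ℕ} {φ : Fm} (h : LogAx φ) (hn : φ.str.length ≤ n) :
    axC (cb (mb n)) (fcode φ) = true := by
  have hm : n + 2 ≤ mb n := by unfold mb; omega
  have h0 : 0 < cb (mb n) := lt_cb (Nat.zero_le _)
  cases h with
  | k a b =>
    simp only [Fm.str, List.length_cons, List.length_append] at hn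
    exact axC_intro (fcode a) (fcode b) 0 0 (fcode_lt_cb (by omega)) (fcode_lt_cb (by omega)) h0 h0
      (by simp [axBody, fcode])
  | s a b e =>
    simp only [Fm.str, List.length_cons, List.length_append] at hn
    exact axC_intro (fcode a) (fcode b) (fcode e) 0 (fcode_lt_cb (by omega))
      (fcode_lt_cb (by omega)) (fcode_lt_cb (by omega)) h0 (by simp [axBody, fcode])
  | dn a =>
    simp only [Fm.str, List.length_cons, List.length_append] at hn
    exact axC_intro (fcode a) 0 0 0 (fcode_lt_cb (by omega)) h0 h0 h0 (by simp [axBody, fcode])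
  | inst x u a hf =>
    simp only [Fm.str, List.length_cons, List.length_append, length_idx] at hn
    by_cases hx : a.Free x
    · have := flen_le_subst x u a hx
      exact axC_intro (fcode a) (tcode u) 0 x (fcode_lt_cb (by omega)) (tcode_lt_cb (by omega)) h0
        (lt_cb (by omega)) (by simp [axBody, fcode, substC_fcode, (ffC_fcode x u a).2 hf])
    · refine axC_intro (fcode a) (tcode (.var 0)) 0 x (fcode_lt_cb (by omega))
        (tcode_lt_cb (by simp [Tm.str]; omega)) h0 (lt_cb (by omega)) ?_
      simp [axBody, fcode, substC_fcode, (ffC_fcode x _ a).2 (freeFor_of_not_free x _ a hx),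
        fsubst_of_not_free x _ a hx]
  | dist x a b hx =>
    simp only [Fm.str, List.length_cons, List.length_append, length_idx] at hn
    have hx' : freeC x (fcode a) = false := by
      rw [← freeC_fcode] at hx; simpa using hx
    exact axC_intro (fcode a) (fcode b) 0 x (fcode_lt_cb (by omega)) (fcode_lt_cb (by omega)) h0
      (lt_cb (by omega)) (by simp [axBody, fcode, hx'])
  | refl t =>
    simp only [Fm.str, List.length_cons, List.length_append] at hn
    exact axC_intro (tcode t) 0 0 0 (tcode_lt_cb (by omega)) h0 h0 h0 (by simp [axBody, fcode])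
  | leib x s t a ha =>
    simp only [Fm.str, List.length_cons, List.length_append] at hn
    obtain ⟨a', ha1, ha2, ha3⟩ := atomic_rename x s a ha n (by omega)
    have h3 : (n + 2) * (a.subst x s).str.length ≤ (n + 2) * n := Nat.mul_le_mul_left _ (by omega)
    refine axC_intro (fcode a') (tcode s) (tcode t) n (fcode_lt_cb (by unfold mb; omega))
      (tcode_lt_cb (by omega)) (tcode_lt_cb (by omega)) (lt_cb (by omega)) ?_
    simp [axBody, fcode, substC_fcode, ha3, (atomC_fcode a').2 ha1]

def memC (x : ℕ) (l : List ℕ) : Bool := l.any fun y => y == x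

theorem memC_iff (x : ℕ) (l : List ℕ) : memC x l = true ↔ x ∈ l := by simp [memC]

def qC : List ℕ := Q.map fcode

def justC (s : List ℕ) (N : ℕ) (rest : List ℕ) (b : ℕ) : Bool :=
  isF b && (axC N b || memC b qC || strC b == s
    || (rest.any fun a => memC (impC a b) rest)
    || (rest.any fun a => b == allC (dat b) a))

def proofC (s : List ℕ) (N : ℕ) : List ℕ → Bool
  | [] => true
  | b :: rest => justC s N rest b && proofC s N rest

theorem mem_map_fcode {a : Fm} {q : List Fm} : fcode a ∈ q.map fcode ↔ a ∈ q := by
  constructor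
  · intro h
    obtain ⟨b, hb, h⟩ := List.mem_map.1 h
    rwa [← fcode_injective h]
  · exact fun h => List.mem_map_of_mem h

theorem proofC_sound (a : Fm) (N : ℕ) : ∀ p : List ℕ, proofC a.str N p = true →
    ∃ q : List Fm, p = q.map fcode ∧ IsProof (Q ++ [a]) q
  | [], _ => ⟨[], rfl, IsProof.nil⟩
  | b :: rest, h => by
    simp only [proofC, Bool.and_eq_true] at h
    obtain ⟨q, rfl, hq⟩ := proofC_sound a N rest h.2
    have h1 := h.1
    simp only [justC, Bool.and_eq_true, Bool.or_eq_true, isF_iff, memC_iff, beq_iff_eq,
      List.any_eq_true] at h1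
    obtain ⟨⟨φ, rfl⟩, h1⟩ := h1
    refine ⟨φ :: q, rfl, ?_⟩
    rcases h1 with (((h1 | h1) | h1) | h1) | h1
    · obtain ⟨ψ, h2, h3⟩ := axC_sound h1
      rw [fcode_injective h2]
      exact IsProof.logic _ _ hq h3
    · exact IsProof.ax _ _ hq (List.mem_append_left _ (mem_map_fcode.1 h1))
    · rw [strC_fcode] at h1
      exact IsProof.ax _ _ hq (by simp [fstr_injective h1])
    · obtain ⟨c, hc, h2⟩ := h1
      obtain ⟨ψ, hψ, rfl⟩ := List.mem_map.1 hc
      exact IsProof.mp _ ψ φ hq hψ (mem_map_fcode.1 h2)
    · obtain ⟨c, hc, h2⟩ := h1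
      obtain ⟨ψ, hψ, rfl⟩ := List.mem_map.1 hc
      have : φ = .all (dat (fcode φ)) ψ := fcode_injective h2
      rw [this]
      exact IsProof.gen _ _ _ hq hψ

theorem proofC_complete (a : Fm) (n : ℕ) {q : List Fm} (hq : IsProof (Q ++ [a]) q) :
    len q ≤ n → proofC a.str (cb (mb n)) (q.map fcode) = true := by
  induction hq with
  | nil => intro _; rfl
  | logic p b _ hb ih =>
    intro h
    simp only [len, List.map_cons, List.sum_cons] at h
    have h1 := ih (by unfold len; omega)
    have h2 := axC_complete (n := n) hb (by omega)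
    simp [proofC, justC, h1, h2]
  | ax p b _ hb ih =>
    intro h
    simp only [len, List.map_cons, List.sum_cons] at h
    have h1 := ih (by unfold len; omega)
    rcases List.mem_append.1 hb with hb | hb
    · have h2 : memC (fcode b) qC = true := (memC_iff _ _).2 (mem_map_fcode.2 hb)
      simp [proofC, justC, h1, h2]
    · have : b = a := by simpa using hb
      subst this
      simp [proofC, justC, h1, strC_fcode]
  | mp p b c _ hb hc ih =>
    intro h
    simp only [len, List.map_cons, List.sum_cons] at h
    have h1 := ih (by unfold len; omega)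
    have h2 : ((p.map fcode).any fun a => memC (impC a (fcode c)) (p.map fcode)) = true := by
      rw [List.any_eq_true]
      exact ⟨fcode b, mem_map_fcode.2 hb, (memC_iff _ _).2 (mem_map_fcode.2 hc)⟩
    simp only [List.map_cons, proofC, justC, h1, h2, isF_fcode, Bool.or_true, Bool.true_or,
      Bool.and_self]
  | gen p x b _ hb ih =>
    intro h
    simp only [len, List.map_cons, List.sum_cons] at h
    have h1 := ih (by unfold len; omega)
    have h2 : ((p.map fcode).any fun a =>
        fcode (.all x b) == allC (dat (fcode (.all x b))) a) = true := by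
      rw [List.any_eq_true]
      exact ⟨fcode b, mem_map_fcode.2 hb, by simp [fcode, allC]⟩
    simp only [List.map_cons, proofC, justC, h1, h2, isF_fcode, Bool.or_true, Bool.and_self]

def lenC (p : List ℕ) : ℕ := ((p.map strC).flatten).length

theorem lenC_map (q : List Fm) : lenC (q.map fcode) = len q := by
  simp [lenC, len, List.length_flatten, Function.comp_def, strC_fcode]

def refC (s : List ℕ) (n : ℕ) : Bool :=
  (List.range (lb (cb (mb n)) n + 1)).any fun d =>
    proofC s (cb (mb n)) (lst d) && memC botC (lst d) && decide (lenC (lst d) ≤ n)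

theorem length_le_len (q : List Fm) : q.length ≤ len q := by
  induction q with
  | nil => simp
  | cons a q ih =>
    have := fstr_pos a
    simp only [len, List.map_cons, List.sum_cons, List.length_cons] at ih ⊢
    omega

theorem refC_iff (a : Fm) (n : ℕ) :
    refC a.str n = true ↔ ∃ p, IsProof (Q ++ [a]) p ∧ Fm.bot ∈ p ∧ len p ≤ n := by
  simp only [refC, List.any_eq_true, Bool.and_eq_true, memC_iff, decide_eq_true_eq,
    List.mem_range]
  constructor
  · rintro ⟨d, -, ⟨h1, h2⟩, h3⟩
    obtain ⟨q, hq, hp⟩ := proofC_sound a _ _ h1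
    rw [hq] at h2 h3
    exact ⟨q, hp, mem_map_fcode.1 h2, by rwa [lenC_map] at h3⟩
  · rintro ⟨q, hq, h2, h3⟩
    refine ⟨Encodable.encode (q.map fcode), Nat.lt_succ_of_le ?_, ⟨?_, ?_⟩, ?_⟩
    · apply encode_le_lb
      · simpa using (length_le_len q).trans h3
      · intro x hx
        obtain ⟨b, hb, rfl⟩ := List.mem_map.1 hx
        have h4 : b.str.length ≤ len q :=
          List.le_sum_of_mem (List.mem_map_of_mem (f := fun a : Fm => a.str.length) hb)
        exact (fcode_lt_cb (by unfold mb; omega)).le
    · rw [lst_encode]; exact proofC_complete a n hq h3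
    · rw [lst_encode]; exact mem_map_fcode.2 h2
    · rw [lst_encode, lenC_map]; exact h3

end Pool.Agent.MP_8ec908_lc.H19
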