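import Pool.Agent.MP_8ec908_lc.Defs

/-! Tree codes of terms and formulas, and code-level versions of the syntactic operations. -/

namespace Pool.Agent.MP_8ec908_lc.H19

open Pool.Agent.MP_8ec908_lc.Defs

/-! ### Universal trees coded by natural numbers -/

def tag (c : ℕ) : ℕ := c.unpair.1.unpair.1
def dat (c : ℕ) : ℕ := c.unpair.1.unpair.2
def lst (c : ℕ) : List ℕ := Denumerable.ofNat (List ℕ) c
def kids (c : ℕ) : List ℕ := lst c.unpair.2
def node (t d : ℕ) (ks : List ℕ) : ℕ := Nat.pair (Nat.pair t d) (Encodable.encode ks)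

@[simp] theorem lst_encode (l : List ℕ) : lst (Encodable.encode l) = l :=
  Denumerable.ofNat_encode l

@[simp] theorem encode_lst (c : ℕ) : Encodable.encode (lst c) = c :=
  Denumerable.encode_ofNat c

@[simp] theorem tag_node (t d : ℕ) (ks : List ℕ) : tag (node t d ks) = t := by simp [tag, node]
@[simp] theorem dat_node (t d : ℕ) (ks : List ℕ) : dat (node t d ks) = d := by simp [dat, node]
@[simp] theorem kids_node (t d : ℕ) (ks : List ℕ) : kids (node t d ks) = ks := by simp [kids, node]

theorem node_eta (c : ℕ) : node (tag c) (dat c) (kids c) = c := by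
  simp [node, tag, dat, kids]

theorem lt_encode_of_mem : ∀ (l : List ℕ) (a : ℕ), a ∈ l → a < Encodable.encode l
  | [], _, h => by simp at h
  | b :: l, a, h => by
    rw [Encodable.encode_list_cons]
    rcases List.mem_cons.1 h with rfl | h
    · exact Nat.lt_succ_of_le (Nat.left_le_pair _ _)
    · exact Nat.lt_succ_of_le ((lt_encode_of_mem l a h).le.trans (Nat.right_le_pair _ _))

theorem lt_of_mem_kids {c a : ℕ} (h : a ∈ kids c) : a < c := by
  have h1 := lt_encode_of_mem _ _ h
  unfold kids at h1
  rw [encode_lst] at h1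
  exact h1.trans_le (Nat.unpair_right_le c)

/-- Recursion on universal trees. -/
def trec {σ : Type} (G : ℕ → List σ → σ) (c : ℕ) : σ :=
  G c ((kids c).attach.map fun x => trec G x.1)
termination_by c
decreasing_by exact lt_of_mem_kids x.2

theorem trec_eq {σ : Type} (G : ℕ → List σ → σ) (c : ℕ) :
    trec G c = G c ((kids c).map (trec G)) := by
  rw [trec]
  congr 1
  exact List.attach_map_val (l := kids c) (f := trec G)

theorem trec_node {σ : Type} (G : ℕ → List σ → σ) (t d : ℕ) (ks : List ℕ) :
    trec G (node t d ks) = G (node t d ks) (ks.map (trec G)) := by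
  rw [trec_eq, kids_node]

/-! ### Codes of terms and formulas -/

def tcode : Tm → ℕ
  | .var i => node 0 i []
  | .app k _ ts => node 1 k (List.ofFn fun i => tcode (ts i))

def impC (a b : ℕ) : ℕ := node 5 0 [a, b]
def allC (x a : ℕ) : ℕ := node 6 x [a]
def eqC (s t : ℕ) : ℕ := node 3 0 [s, t]
def botC : ℕ := node 2 0 []

def fcode : Fm → ℕ
  | .bot => botC
  | .eq s t => eqC (tcode s) (tcode t)
  | .rel k _ ts => node 4 k (List.ofFn fun i => tcode (ts i))
  | .imp a b => impC (fcode a) (fcode b)
  | .all x a => allC x (fcode a)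

/-! ### Printing -/

def strG (c : ℕ) (rs : List (List ℕ)) : List ℕ :=
  bif tag c == 0 then 2 :: idx (dat c)
  else bif tag c == 1 then 3 :: (idx (dat c) ++ idx rs.length ++ rs.flatten)
  else bif tag c == 2 then [4]
  else bif tag c == 3 then 5 :: rs.flatten
  else bif tag c == 4 then 6 :: (idx (dat c) ++ idx rs.length ++ rs.flatten)
  else bif tag c == 5 then 7 :: rs.flatten
  else 8 :: (idx (dat c) ++ rs.flatten)

def strC (c : ℕ) : List ℕ := trec strG c

theorem strC_tcode (t : Tm) : strC (tcode t) = t.str := by
  induction t with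
  | var i => simp [strC, tcode, trec_node, strG, Tm.str]
  | app k n ts ih =>
    unfold strC at ih
    simp [strC, tcode, trec_node, strG, Tm.str, List.map_ofFn, Function.comp_def, ih]

theorem strC_fcode (a : Fm) : strC (fcode a) = a.str := by
  have ht := strC_tcode
  unfold strC at ht
  induction a with
  | bot => simp [strC, fcode, botC, trec_node, strG, Fm.str]
  | eq s t => simp [strC, fcode, eqC, trec_node, strG, Fm.str, ht]
  | rel k n ts => simp [strC, fcode, trec_node, strG, Fm.str, List.map_ofFn, Function.comp_def, ht]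
  | imp a b iha ihb =>
    unfold strC at iha ihb
    simp [strC, fcode, impC, trec_node, strG, Fm.str, iha, ihb]
  | all x a ih =>
    unfold strC at ih
    simp [strC, fcode, allC, trec_node, strG, Fm.str, ih]

/-! ### Unique readability -/

theorem idx_append_inj : ∀ (i j : ℕ) (r s : List ℕ), idx i ++ r = idx j ++ s → i = j ∧ r = s
  | 0, 0, r, s, h => by simpa [idx] using h
  | 0, j + 1, r, s, h => by simp [idx, List.replicate_succ] at h
  | i + 1, 0, r, s, h => by simp [idx, List.replicate_succ] at h
  | i + 1, j + 1, r, s, h => by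
    have h' : idx i ++ r = idx j ++ s := by
      simpa [idx, List.replicate_succ] using h
    obtain ⟨h1, h2⟩ := idx_append_inj i j r s h'
    exact ⟨by omega, h2⟩

theorem flatten_ofFn_inj : ∀ (n : ℕ) (ts us : Fin n → Tm)
    (_ : ∀ i (u : Tm) (r s : List ℕ), (ts i).str ++ r = u.str ++ s → ts i = u ∧ r = s)
    (r s : List ℕ),
    (List.ofFn fun i => (ts i).str).flatten ++ r = (List.ofFn fun i => (us i).str).flatten ++ s →
      ts = us ∧ r = s
  | 0, ts, us, _, r, s, h => ⟨funext fun i => i.elim0, by simpa using h⟩
  | n + 1, ts, us, ih, r, s, h => by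
    simp only [List.ofFn_succ, List.flatten_cons, List.append_assoc] at h
    obtain ⟨h1, h2⟩ := ih 0 _ _ _ h
    obtain ⟨h3, h4⟩ := flatten_ofFn_inj n (fun i => ts i.succ) (fun i => us i.succ)
      (fun i => ih i.succ) r s h2
    refine ⟨funext fun i => ?_, h4⟩
    refine Fin.cases h1 (fun j => congrFun h3 j) i

theorem tstr_inj (t : Tm) : ∀ (u : Tm) (r s : List ℕ), t.str ++ r = u.str ++ s → t = u ∧ r = s := by
  induction t with
  | var i =>
    intro u r s h
    cases u with
    | var j =>
      simp only [Tm.str, List.cons_append, List.cons.injEq, true_and] at h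
      obtain ⟨h1, h2⟩ := idx_append_inj _ _ _ _ h
      exact ⟨by rw [h1], h2⟩
    | app k n us => simp [Tm.str] at h
  | app k n ts ih =>
    intro u r s h
    cases u with
    | var j => simp [Tm.str] at h
    | app k' n' us =>
      simp only [Tm.str, List.cons_append, List.cons.injEq, true_and, List.append_assoc] at h
      obtain ⟨h1, h2⟩ := idx_append_inj _ _ _ _ h
      obtain ⟨h3, h4⟩ := idx_append_inj _ _ _ _ h2
      subst h1 h3
      obtain ⟨h5, h6⟩ := flatten_ofFn_inj n ts us ih r s h4
      exact ⟨by rw [h5], h6⟩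

theorem fstr_inj (a : Fm) : ∀ (b : Fm) (r s : List ℕ), a.str ++ r = b.str ++ s → a = b ∧ r = s := by
  induction a with
  | bot =>
    intro b r s h
    cases b <;> simp_all [Fm.str]
  | eq t u =>
    intro b r s h
    cases b with
    | eq t' u' =>
      simp only [Fm.str, List.cons_append, List.cons.injEq, true_and, List.append_assoc] at h
      obtain ⟨h1, h2⟩ := tstr_inj _ _ _ _ h
      obtain ⟨h3, h4⟩ := tstr_inj _ _ _ _ h2
      exact ⟨by rw [h1, h3], h4⟩
    | _ => simp [Fm.str] at h
  | rel k n ts =>
    intro b r s h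
    cases b with
    | rel k' n' us =>
      simp only [Fm.str, List.cons_append, List.cons.injEq, true_and, List.append_assoc] at h
      obtain ⟨h1, h2⟩ := idx_append_inj _ _ _ _ h
      obtain ⟨h3, h4⟩ := idx_append_inj _ _ _ _ h2
      subst h1 h3
      obtain ⟨h5, h6⟩ := flatten_ofFn_inj n ts us (fun i => tstr_inj (ts i)) r s h4
      exact ⟨by rw [h5], h6⟩
    | _ => simp [Fm.str] at h
  | imp a₁ a₂ ih₁ ih₂ =>
    intro b r s h
    cases b with
    | imp b₁ b₂ =>
      simp only [Fm.str, List.cons_append, List.cons.injEq, true_and, List.append_assoc] at h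
      obtain ⟨h1, h2⟩ := ih₁ _ _ _ h
      obtain ⟨h3, h4⟩ := ih₂ _ _ _ h2
      exact ⟨by rw [h1, h3], h4⟩
    | _ => simp [Fm.str] at h
  | all x a ih =>
    intro b r s h
    cases b with
    | all y b =>
      simp only [Fm.str, List.cons_append, List.cons.injEq, true_and, List.append_assoc] at h
      obtain ⟨h1, h2⟩ := idx_append_inj _ _ _ _ h
      obtain ⟨h3, h4⟩ := ih _ _ _ h2
      exact ⟨by rw [h1, h3], h4⟩
    | _ => simp [Fm.str] at h

theorem fstr_injective {a b : Fm} (h : a.str = b.str) : a = b :=
  (fstr_inj a b [] [] (by simpa using h)).1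

theorem fcode_injective {a b : Fm} (h : fcode a = fcode b) : a = b :=
  fstr_injective (by rw [← strC_fcode, ← strC_fcode, h])

/-! ### Well-formed codes -/

def kindG (c : ℕ) (rs : List ℕ) : ℕ :=
  bif tag c == 0 then (bif rs == [] then 1 else 0)
  else bif tag c == 1 then (bif rs.all (fun r => r == 1) then 1 else 0)
  else bif tag c == 2 then (bif dat c == 0 && rs == [] then 2 else 0)
  else bif tag c == 3 then (bif dat c == 0 && rs == [1, 1] then 2 else 0)
  else bif tag c == 4 then (bif rs.all (fun r => r == 1) then 2 else 0)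
  else bif tag c == 5 then (bif dat c == 0 && rs == [2, 2] then 2 else 0)
  else bif tag c == 6 then (bif rs == [2] then 2 else 0)
  else 0

def kind (c : ℕ) : ℕ := trec kindG c

theorem kind_tcode (t : Tm) : kind (tcode t) = 1 := by
  induction t with
  | var i => simp [kind, tcode, trec_node, kindG]
  | app k n ts ih =>
    unfold kind at ih
    simp [kind, tcode, trec_node, kindG, List.map_ofFn, Function.comp_def, ih]

theorem kind_fcode (a : Fm) : kind (fcode a) = 2 := by
  have ht := kind_tcode
  unfold kind at ht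
  induction a with
  | bot => simp [kind, fcode, botC, trec_node, kindG]
  | eq s t => simp [kind, fcode, eqC, trec_node, kindG, ht]
  | rel k n ts => simp [kind, fcode, trec_node, kindG, List.map_ofFn, Function.comp_def, ht]
  | imp a b iha ihb =>
    unfold kind at iha ihb
    simp [kind, fcode, impC, trec_node, kindG, iha, ihb]
  | all x a ih =>
    unfold kind at ih
    simp [kind, fcode, allC, trec_node, kindG, ih]

theorem exists_ofFn (l : List ℕ) (h : ∀ c ∈ l, ∃ t, c = tcode t) :
    ∃ (n : ℕ) (ts : Fin n → Tm), l = List.ofFn fun i => tcode (ts i) := by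
  choose f hf using h
  refine ⟨l.length, fun i => f l[i] (List.getElem_mem _), ?_⟩
  apply List.ext_getElem (by simp)
  intro i h1 h2
  simp only [List.getElem_ofFn]
  exact hf _ _

theorem kind_spec (c : ℕ) :
    (kind c = 1 → ∃ t, c = tcode t) ∧ (kind c = 2 → ∃ a, c = fcode a) := by
  induction c using Nat.strong_induction_on with
  | _ c ih =>
  have hk : kind c = kindG c ((kids c).map kind) := trec_eq _ _
  have he := node_eta c
  have ih1 : ∀ d ∈ kids c, kind d = 1 → ∃ t, d = tcode t := fun d hd => (ih d (lt_of_mem_kids hd)).1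
  have ih2 : ∀ d ∈ kids c, kind d = 2 → ∃ t, d = fcode t := fun d hd => (ih d (lt_of_mem_kids hd)).2
  rw [hk]
  unfold kindG
  by_cases h0 : tag c = 0
  · simp only [h0, beq_self_eq_true, cond_true]
    by_cases hr : kids c = []
    · refine ⟨fun _ => ⟨.var (dat c), ?_⟩, by simp [hr]⟩
      rw [tcode, ← h0, ← hr, he]
    · simp [hr, Bool.cond_eq_ite]
  by_cases h1 : tag c = 1
  · simp only [h1, Nat.reduceBEq, cond_false, beq_self_eq_true, cond_true]
    by_cases hr : ∀ d ∈ kids c, kind d = 1
    · obtain ⟨n, ts, hts⟩ := exists_ofFn (kids c) fun d hd => ih1 d hd (hr d hd)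
      refine ⟨fun _ => ⟨.app (dat c) n ts, ?_⟩, ?_⟩
      · rw [tcode, ← h1, ← hts, he]
      · cases (List.map kind (kids c)).all fun r => r == 1 <;> simp
    · have : ((List.map kind (kids c)).all fun r => r == 1) = false := by
        simpa using hr
      simp [this]
  by_cases h2 : tag c = 2
  · simp only [h2, Nat.reduceBEq, cond_false, beq_self_eq_true, cond_true]
    by_cases hr : dat c = 0 ∧ kids c = []
    · refine ⟨by simp [hr], fun _ => ⟨.bot, ?_⟩⟩
      rw [fcode, botC, ← h2, ← hr.2, ← hr.1, he]
    · have : (dat c == 0 && List.map kind (kids c) == []) = false := by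
        simpa using hr
      rw [this]
      simp
  by_cases h3 : tag c = 3
  · simp only [h3, Nat.reduceBEq, cond_false, beq_self_eq_true, cond_true]
    by_cases hr : dat c = 0 ∧ List.map kind (kids c) = [1, 1]
    · refine ⟨by simp [hr], fun _ => ?_⟩
      obtain ⟨hd, hr⟩ := hr
      obtain ⟨s, l, hl, hs, hr⟩ := List.map_eq_cons_iff.1 hr
      obtain ⟨t, l', hl', ht, hr⟩ := List.map_eq_cons_iff.1 hr
      have : l' = [] := by simpa using hr
      subst this hl'
      obtain ⟨s', rfl⟩ := ih1 s (by simp [hl]) hs
      obtain ⟨t', rfl⟩ := ih1 t (by simp [hl]) ht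
      refine ⟨.eq s' t', ?_⟩
      rw [fcode, eqC, ← h3, ← hl, ← hd, he]
    · have : (dat c == 0 && List.map kind (kids c) == [1, 1]) = false := by
        simpa using hr
      simp [this]
  by_cases h4 : tag c = 4
  · simp only [h4, Nat.reduceBEq, cond_false, beq_self_eq_true, cond_true]
    by_cases hr : ∀ d ∈ kids c, kind d = 1
    · obtain ⟨n, ts, hts⟩ := exists_ofFn (kids c) fun d hd => ih1 d hd (hr d hd)
      refine ⟨?_, fun _ => ⟨.rel (dat c) n ts, ?_⟩⟩
      · cases (List.map kind (kids c)).all fun r => r == 1 <;> simp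
      · rw [fcode, ← h4, ← hts, he]
    · have : ((List.map kind (kids c)).all fun r => r == 1) = false := by
        simpa using hr
      simp [this]
  by_cases h5 : tag c = 5
  · simp only [h5, Nat.reduceBEq, cond_false, beq_self_eq_true, cond_true]
    by_cases hr : dat c = 0 ∧ List.map kind (kids c) = [2, 2]
    · refine ⟨by simp [hr], fun _ => ?_⟩
      obtain ⟨hd, hr⟩ := hr
      obtain ⟨s, l, hl, hs, hr⟩ := List.map_eq_cons_iff.1 hr
      obtain ⟨t, l', hl', ht, hr⟩ := List.map_eq_cons_iff.1 hr
      have : l' = [] := by simpa using hr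
      subst this hl'
      obtain ⟨s', rfl⟩ := ih2 s (by simp [hl]) hs
      obtain ⟨t', rfl⟩ := ih2 t (by simp [hl]) ht
      refine ⟨.imp s' t', ?_⟩
      rw [fcode, impC, ← h5, ← hl, ← hd, he]
    · have : (dat c == 0 && List.map kind (kids c) == [2, 2]) = false := by
        simpa using hr
      simp [this]
  by_cases h6 : tag c = 6
  · simp only [h6, Nat.reduceBEq, cond_false, beq_self_eq_true, cond_true]
    by_cases hr : List.map kind (kids c) = [2]
    · refine ⟨by simp [hr], fun _ => ?_⟩
      obtain ⟨s, l, hl, hs, hr⟩ := List.map_eq_cons_iff.1 hr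
      have : l = [] := by simpa using hr
      subst this
      obtain ⟨s', rfl⟩ := ih2 s (by simp [hl]) hs
      refine ⟨.all (dat c) s', ?_⟩
      rw [fcode, allC, ← h6, ← hl, he]
    · have : (List.map kind (kids c) == [2]) = false := by
        simpa using hr
      simp [this]
  · simp [Bool.cond_eq_ite, h0, h1, h2, h3, h4, h5, h6]

def isT (c : ℕ) : Bool := kind c == 1
def isF (c : ℕ) : Bool := kind c == 2

theorem isT_iff (c : ℕ) : isT c = true ↔ ∃ t, c = tcode t := by
  constructor
  · intro h; exact (kind_spec c).1 (by simpa [isT] using h)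
  · rintro ⟨t, rfl⟩; simp [isT, kind_tcode]

theorem isF_iff (c : ℕ) : isF c = true ↔ ∃ a, c = fcode a := by
  constructor
  · intro h; exact (kind_spec c).2 (by simpa [isF] using h)
  · rintro ⟨t, rfl⟩; simp [isF, kind_fcode]

@[simp] theorem isT_tcode (t : Tm) : isT (tcode t) = true := (isT_iff _).2 ⟨t, rfl⟩
@[simp] theorem isF_fcode (a : Fm) : isF (fcode a) = true := (isF_iff _).2 ⟨a, rfl⟩

/-! ### Free variables, substitution, substitutability -/

def freeG (x : ℕ) (c : ℕ) (rs : List Bool) : Bool :=
  bif tag c == 0 then dat c == x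
  else bif tag c == 6 then (!(dat c == x) && rs.any fun r => r)
  else rs.any fun r => r

def freeC (x c : ℕ) : Bool := trec (freeG x) c

theorem freeC_tcode (x : ℕ) (t : Tm) : freeC x (tcode t) = true ↔ t.Occ x := by
  induction t with
  | var i => simp [freeC, tcode, trec_node, freeG, Tm.Occ]
  | app k n ts ih =>
    unfold freeC at ih
    simp [freeC, tcode, trec_node, freeG, Tm.Occ, List.map_ofFn, Function.comp_def, ih,
      List.mem_ofFn]

theorem freeC_fcode (x : ℕ) (a : Fm) : freeC x (fcode a) = true ↔ a.Free x := by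
  have ht := freeC_tcode x
  unfold freeC at ht
  induction a with
  | bot => simp [freeC, fcode, botC, trec_node, freeG, Fm.Free]
  | eq s t => simp [freeC, fcode, eqC, trec_node, freeG, Fm.Free, ht]
  | rel k n ts =>
    simp [freeC, fcode, trec_node, freeG, Fm.Free, List.map_ofFn, Function.comp_def, ht,
      List.mem_ofFn]
  | imp a b iha ihb =>
    unfold freeC at iha ihb
    simp [freeC, fcode, impC, trec_node, freeG, Fm.Free, iha, ihb]
  | all y a ih =>
    unfold freeC at ih
    simp [freeC, fcode, allC, trec_node, freeG, Fm.Free, ih]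

def substG (x u : ℕ) (c : ℕ) (rs : List ℕ) : ℕ :=
  bif tag c == 0 then (bif dat c == x then u else c)
  else bif tag c == 6 && dat c == x then c
  else node (tag c) (dat c) rs

def substC (x u c : ℕ) : ℕ := trec (substG x u) c

theorem substC_tcode (x : ℕ) (u t : Tm) : substC x (tcode u) (tcode t) = tcode (t.subst x u) := by
  induction t with
  | var i =>
    by_cases h : i = x <;> simp [substC, tcode, trec_node, substG, Tm.subst, h, Bool.cond_eq_ite]
  | app k n ts ih =>
    unfold substC at ih
    simp [substC, tcode, trec_node, substG, Tm.subst, List.map_ofFn, Function.comp_def, ih]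

theorem substC_fcode (x : ℕ) (u : Tm) (a : Fm) :
    substC x (tcode u) (fcode a) = fcode (a.subst x u) := by
  have ht := substC_tcode x u
  unfold substC at ht
  induction a with
  | bot => simp [substC, fcode, botC, trec_node, substG, Fm.subst]
  | eq s t => simp [substC, fcode, eqC, trec_node, substG, Fm.subst, ht]
  | rel k n ts =>
    simp [substC, fcode, trec_node, substG, Fm.subst, List.map_ofFn, Function.comp_def, ht]
  | imp a b iha ihb =>
    unfold substC at iha ihb
    simp [substC, fcode, impC, trec_node, substG, Fm.subst, iha, ihb]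
  | all y a ih =>
    unfold substC at ih
    by_cases h : y = x <;> 
      simp [substC, fcode, allC, trec_node, substG, Fm.subst, ih, h, Bool.cond_eq_ite]

def ffG (x u : ℕ) (c : ℕ) (rs : List Bool) : Bool :=
  bif tag c == 5 then rs.all fun r => r
  else bif tag c == 6 then (!(freeC x c) || (!(freeC (dat c) u) && rs.all fun r => r))
  else true

def ffC (x u c : ℕ) : Bool := trec (ffG x u) c

theorem ffC_fcode (x : ℕ) (u : Tm) (a : Fm) :
    ffC x (tcode u) (fcode a) = true ↔ a.FreeFor x u := by
  induction a with
  | bot => simp [ffC, fcode, botC, trec_node, ffG, Fm.FreeFor]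
  | eq s t => simp [ffC, fcode, eqC, trec_node, ffG, Fm.FreeFor]
  | rel k n ts => simp [ffC, fcode, trec_node, ffG, Fm.FreeFor]
  | imp a b iha ihb =>
    unfold ffC at iha ihb
    simp [ffC, fcode, impC, trec_node, ffG, Fm.FreeFor, iha, ihb]
  | all y a ih =>
    unfold ffC at ih
    have h1 := freeC_fcode x (.all y a)
    have h2 := freeC_tcode y u
    simp only [fcode, allC] at h1
    simp only [ffC, fcode, allC, trec_node, ffG, Fm.FreeFor, tag_node, dat_node, ← h1, ← h2, ← ih]
    simp

def atomC (c : ℕ) : Bool := tag c == 3 || tag c == 4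

theorem atomC_fcode (a : Fm) : atomC (fcode a) = true ↔ a.Atomic := by
  cases a <;> simp [atomC, fcode, botC, eqC, impC, allC, Fm.Atomic]

end Pool.Agent.MP_8ec908_lc.H19
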