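import Pool.Agent.MP_8ec908_lc.H19.Prim
import Pool.Agent.MP_8ec908_lc.H18.Iface

namespace Pool.Agent.MP_8ec908_lc.H19

theorem m8 : Pool.Agent.MP_8ec908_lc.H18.M8Statement := primrec_noShort

end Pool.Agent.MP_8ec908_lc.H19
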