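import Pool.Agent.MP_8ec908_lc.H19.Check

/-! The checker is primitive recursive; hence so is the finite consistency relation. -/

namespace Pool.Agent.MP_8ec908_lc.H19

open Pool.Agent.MP_8ec908_lc.Defs

attribute [local fun_prop] Primrec
attribute [local fun_prop] Primrec.const Primrec.fst Primrec.snd Primrec.pair Primrec.unpair

section Combinators

variable {α β σ : Type} [Primcodable α] [Primcodable β] [Primcodable σ]

@[local fun_prop] theorem p_comp {f : β → σ} {g : α → β} (hf : Primrec f) (hg : Primrec g) :
    Primrec fun a => f (g a) := hf.comp hg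

@[local fun_prop] theorem p_id : Primrec (fun a : α => a) := Primrec.id

@[local fun_prop] theorem p_add {f g : α → ℕ} (hf : Primrec f) (hg : Primrec g) :
    Primrec fun a => f a + g a := Primrec.nat_add.comp hf hg

@[local fun_prop] theorem p_mul {f g : α → ℕ} (hf : Primrec f) (hg : Primrec g) :
    Primrec fun a => f a * g a := Primrec.nat_mul.comp hf hg

@[local fun_prop] theorem p_pair {f g : α → ℕ} (hf : Primrec f) (hg : Primrec g) :
    Primrec fun a => Nat.pair (f a) (g a) := Primrec₂.natPair.comp hf hg

@[local fun_prop] theorem p_cons {f : α → β} {g : α → List β} (hf : Primrec f) (hg : Primrec g) :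
    Primrec fun a => f a :: g a := Primrec.list_cons.comp hf hg

@[local fun_prop] theorem p_append {f g : α → List β} (hf : Primrec f) (hg : Primrec g) :
    Primrec fun a => f a ++ g a := Primrec.list_append.comp hf hg

@[local fun_prop] theorem p_flatten {f : α → List (List β)} (hf : Primrec f) :
    Primrec fun a => (f a).flatten := Primrec.list_flatten.comp hf

@[local fun_prop] theorem p_length {f : α → List β} (hf : Primrec f) :
    Primrec fun a => (f a).length := Primrec.list_length.comp hf

@[local fun_prop] theorem p_range {f : α → ℕ} (hf : Primrec f) :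
    Primrec fun a => List.range (f a) := Primrec.list_range.comp hf

@[local fun_prop] theorem p_map {f : α → List β} {g : α → β → σ} (hf : Primrec f)
    (hg : Primrec fun p : α × β => g p.1 p.2) : Primrec fun a => (f a).map (g a) :=
  Primrec.list_map hf hg

@[local fun_prop] theorem p_cond {c : α → Bool} {f g : α → σ} (hc : Primrec c) (hf : Primrec f)
    (hg : Primrec g) : Primrec fun a => bif c a then f a else g a := Primrec.cond hc hf hg

@[local fun_prop] theorem p_beq {f g : α → ℕ} (hf : Primrec f) (hg : Primrec g) :
    Primrec fun a => (f a == g a) := Primrec.beq.comp hf hg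

@[local fun_prop] theorem p_beql {f g : α → List ℕ} (hf : Primrec f) (hg : Primrec g) :
    Primrec fun a => (f a == g a) := by
  have h : Primrec fun a => decide (f a = g a) := (Primrec.eq.comp hf hg).decide
  exact h.of_eq fun a => by
    by_cases h : f a = g a <;> simp [h]

@[local fun_prop] theorem p_le {f g : α → ℕ} (hf : Primrec f) (hg : Primrec g) :
    Primrec fun a => decide (f a ≤ g a) := (Primrec.nat_le.comp hf hg).decide

@[local fun_prop] theorem p_and {f g : α → Bool} (hf : Primrec f) (hg : Primrec g) :
    Primrec fun a => (f a && g a) := Primrec.and.comp hf hg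

@[local fun_prop] theorem p_or {f g : α → Bool} (hf : Primrec f) (hg : Primrec g) :
    Primrec fun a => (f a || g a) := Primrec.or.comp hf hg

@[local fun_prop] theorem p_not {f : α → Bool} (hf : Primrec f) :
    Primrec fun a => (!f a) := Primrec.not.comp hf

@[local fun_prop] theorem p_any {f : α → List β} {g : α → β → Bool} (hf : Primrec f)
    (hg : Primrec fun p : α × β => g p.1 p.2) : Primrec fun a => (f a).any (g a) := by
  have h : Primrec fun a => (f a).foldr (fun b s => g a b || s) false :=
    Primrec.list_foldr (h := fun a (p : β × Bool) => g a p.1 || p.2) hf (Primrec.const false)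
      (Primrec.or.comp (hg.comp (Primrec.pair Primrec.fst (Primrec.fst.comp Primrec.snd)))
        (Primrec.snd.comp Primrec.snd))
  exact h.of_eq fun a => by
    induction f a with
    | nil => rfl
    | cons b l ih => simp [ih]

@[local fun_prop] theorem p_all {f : α → List β} {g : α → β → Bool} (hf : Primrec f)
    (hg : Primrec fun p : α × β => g p.1 p.2) : Primrec fun a => (f a).all (g a) := by
  have h : Primrec fun a => (f a).foldr (fun b s => g a b && s) true :=
    Primrec.list_foldr (h := fun a (p : β × Bool) => g a p.1 && p.2) hf (Primrec.const true)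
      (Primrec.and.comp (hg.comp (Primrec.pair Primrec.fst (Primrec.fst.comp Primrec.snd)))
        (Primrec.snd.comp Primrec.snd))
  exact h.of_eq fun a => by
    induction f a with
    | nil => rfl
    | cons b l ih => simp [ih]

@[local fun_prop] theorem p_encode {f : α → List ℕ} (hf : Primrec f) :
    Primrec fun a => Encodable.encode (f a) := Primrec.encode.comp hf

@[local fun_prop] theorem p_lst : Primrec lst := Primrec.ofNat (List ℕ)

@[local fun_prop] theorem p_tag : Primrec tag := by unfold tag; fun_prop
@[local fun_prop] theorem p_dat : Primrec dat := by unfold dat; fun_prop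
@[local fun_prop] theorem p_kids : Primrec kids := by unfold kids; fun_prop

@[local fun_prop] theorem p_node {f g : α → ℕ} {h : α → List ℕ} (hf : Primrec f) (hg : Primrec g)
    (hh : Primrec h) : Primrec fun a => node (f a) (g a) (h a) := by
  unfold node; fun_prop

@[local fun_prop] theorem p_idx : Primrec idx := by
  have h : Primrec fun i : ℕ => ((List.range i).map fun _ => 1) ++ [0] := by fun_prop
  exact h.of_eq fun i => by simp [idx]

theorem p_trec {G : α → ℕ → List σ → σ}
    (hG : Primrec fun p : α × ℕ × List σ => G p.1 p.2.1 p.2.2) :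
    Primrec fun p : α × ℕ => trec (G p.1) p.2 := by
  refine Primrec.nat_omega_rec (fun a c => trec (G a) c) (m := fun _ c => c)
    (l := fun _ c => kids c) (g := fun a p => some (G a p.1 p.2)) Primrec₂.right
    (p_kids.comp Primrec.snd) (Primrec.option_some.comp hG) ?_ ?_
  · intro _ _ _ h
    exact lt_of_mem_kids h
  · intro a b
    rw [trec_eq (G a) b]

theorem p_trec₁ {G : ℕ → List σ → σ} (hG : Primrec fun p : ℕ × List σ => G p.1 p.2) :
    Primrec (trec G) :=
  (p_trec (α := ℕ) (G := fun _ => G) (hG.comp Primrec.snd)).comp
    (Primrec.pair (Primrec.const 0) Primrec.id)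

@[local fun_prop] theorem p_strC : Primrec strC := by
  apply p_trec₁
  unfold strG
  fun_prop

@[local fun_prop] theorem p_kind : Primrec kind := by
  apply p_trec₁
  unfold kindG
  fun_prop

@[local fun_prop] theorem p_isT : Primrec isT := by unfold isT; fun_prop
@[local fun_prop] theorem p_isF : Primrec isF := by unfold isF; fun_prop
@[local fun_prop] theorem p_atomC : Primrec atomC := by unfold atomC; fun_prop

@[local fun_prop] theorem p_freeC {f g : α → ℕ} (hf : Primrec f) (hg : Primrec g) :
    Primrec fun a => freeC (f a) (g a) := by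
  have h : Primrec fun p : ℕ × ℕ => trec (freeG p.1) p.2 := by
    apply p_trec
    unfold freeG
    fun_prop
  exact h.comp (Primrec.pair hf hg)

@[local fun_prop] theorem p_substC {f g k : α → ℕ} (hf : Primrec f) (hg : Primrec g)
    (hk : Primrec k) : Primrec fun a => substC (f a) (g a) (k a) := by
  have h0 : Primrec fun p : (ℕ × ℕ) × ℕ × List ℕ => substG p.1.1 p.1.2 p.2.1 p.2.2 := by
    unfold substG
    fun_prop
  have h : Primrec fun p : (ℕ × ℕ) × ℕ => substC p.1.1 p.1.2 p.2 :=
    (p_trec (G := fun q : ℕ × ℕ => substG q.1 q.2) h0 :)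
  exact (h.comp (Primrec.pair (Primrec.pair hf hg) hk) :)

@[local fun_prop] theorem p_ffC {f g k : α → ℕ} (hf : Primrec f) (hg : Primrec g)
    (hk : Primrec k) : Primrec fun a => ffC (f a) (g a) (k a) := by
  have h0 : Primrec fun p : (ℕ × ℕ) × ℕ × List Bool => ffG p.1.1 p.1.2 p.2.1 p.2.2 := by
    unfold ffG
    fun_prop
  have h : Primrec fun p : (ℕ × ℕ) × ℕ => ffC p.1.1 p.1.2 p.2 :=
    (p_trec (G := fun q : ℕ × ℕ => ffG q.1 q.2) h0 :)
  exact (h.comp (Primrec.pair (Primrec.pair hf hg) hk) :)

@[local fun_prop] theorem p_impC {f g : α → ℕ} (hf : Primrec f) (hg : Primrec g) :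
    Primrec fun a => impC (f a) (g a) := by unfold impC; fun_prop

@[local fun_prop] theorem p_allC {f g : α → ℕ} (hf : Primrec f) (hg : Primrec g) :
    Primrec fun a => allC (f a) (g a) := by unfold allC; fun_prop

@[local fun_prop] theorem p_eqC {f g : α → ℕ} (hf : Primrec f) (hg : Primrec g) :
    Primrec fun a => eqC (f a) (g a) := by unfold eqC; fun_prop

@[local fun_prop] theorem p_axBody {c a b e x : α → ℕ} (hc : Primrec c) (ha : Primrec a)
    (hb : Primrec b) (he : Primrec e) (hx : Primrec x) :
    Primrec fun z => axBody (c z) (a z) (b z) (e z) (x z) := by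
  unfold axBody; fun_prop

@[local fun_prop] theorem p_axC {f g : α → ℕ} (hf : Primrec f) (hg : Primrec g) :
    Primrec fun a => axC (f a) (g a) := by
  unfold axC; fun_prop

@[local fun_prop] theorem p_memC {f : α → ℕ} {g : α → List ℕ} (hf : Primrec f) (hg : Primrec g) :
    Primrec fun a => memC (f a) (g a) := by
  unfold memC; fun_prop

@[local fun_prop] theorem p_justC {s r : α → List ℕ} {f g : α → ℕ} (hs : Primrec s)
    (hf : Primrec f) (hr : Primrec r) (hg : Primrec g) :
    Primrec fun a => justC (s a) (f a) (r a) (g a) := by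
  unfold justC; fun_prop

@[local fun_prop] theorem p_proofC {s r : α → List ℕ} {f : α → ℕ} (hs : Primrec s)
    (hf : Primrec f) (hr : Primrec r) : Primrec fun a => proofC (s a) (f a) (r a) := by
  have h0 : Primrec fun p : α × ℕ × List ℕ × Bool =>
      justC (s p.1) (f p.1) p.2.2.1 p.2.1 && p.2.2.2 := by fun_prop
  have h := Primrec.list_rec (f := r) (g := fun _ => true)
    (h := fun a (p : ℕ × List ℕ × Bool) => justC (s a) (f a) p.2.1 p.1 && p.2.2) hr
    (Primrec.const true) h0
  exact h.of_eq fun a => by
    induction r a with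
    | nil => rfl
    | cons b l ih => simp only [proofC, ← ih]

@[local fun_prop] theorem p_lb {f g : α → ℕ} (hf : Primrec f) (hg : Primrec g) :
    Primrec fun a => lb (f a) (g a) := by
  have h0 : Primrec fun p : α × ℕ => Nat.pair (f p.1) p.2 + 1 := by fun_prop
  exact Primrec.nat_iterate (h := fun a y => Nat.pair (f a) y + 1) hg (Primrec.const 0) h0

@[local fun_prop] theorem p_tb {f g : α → ℕ} (hf : Primrec f) (hg : Primrec g) :
    Primrec fun a => tb (f a) (g a) := by
  have h0 : Primrec fun p : α × ℕ => Nat.pair (Nat.pair 6 (f p.1)) (lb p.2 (f p.1)) := by fun_prop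
  exact Primrec.nat_iterate (h := fun a y => Nat.pair (Nat.pair 6 (f a)) (lb y (f a))) hg
    (Primrec.const 0) h0

@[local fun_prop] theorem p_cb : Primrec cb := by unfold cb; fun_prop
@[local fun_prop] theorem p_mb : Primrec mb := by unfold mb; fun_prop
@[local fun_prop] theorem p_lenC : Primrec lenC := by unfold lenC; fun_prop

theorem p_refC : Primrec fun p : List ℕ × ℕ => refC p.1 p.2 := by
  unfold refC; fun_prop

end Combinators

/-- Finite consistency of `Q + a` is a primitive recursive relation of the code of the string of
`a` and the length bound. -/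
theorem primrec_noShort : ∃ R : ℕ → ℕ → Prop, PrimrecRel R ∧
    ∀ (a : Fm) (n : ℕ), R (Encodable.encode a.str) n ↔ NoShortRefutation (Q ++ [a]) n := by
  refine ⟨fun c n => refC (lst c) n = false, ?_, ?_⟩
  · have h : Primrec fun p : ℕ × ℕ => refC (lst p.1) p.2 :=
      (p_refC.comp (Primrec.pair (p_lst.comp Primrec.fst) Primrec.snd) :)
    exact Primrec.eq.comp h (Primrec.const false)
  · intro a n
    simp only [lst_encode, NoShortRefutation, ← refC_iff, Bool.not_eq_true]

/-- The same, as a primitive recursive function on `ℕ` with value `0` exactly on finite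
consistency. -/
theorem primrec_noShort_fun : ∃ f : ℕ → ℕ, Primrec f ∧
    ∀ (a : Fm) (n : ℕ),
      f (Nat.pair (Encodable.encode a.str) n) = 0 ↔ NoShortRefutation (Q ++ [a]) n := by
  refine ⟨fun z => bif refC (lst z.unpair.1) z.unpair.2 then 1 else 0, ?_, ?_⟩
  · have h : Primrec fun z : ℕ => refC (lst z.unpair.1) z.unpair.2 :=
      (p_refC.comp (Primrec.pair (p_lst.comp (Primrec.fst.comp Primrec.unpair))
        (Primrec.snd.comp Primrec.unpair)) :)
    exact Primrec.cond h (Primrec.const 1) (Primrec.const 0)
  · intro a n
    simp only [Nat.unpair_pair, lst_encode, NoShortRefutation, ← refC_iff]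
    cases refC a.str n <;> simp

end Pool.Agent.MP_8ec908_lc.H19

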